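import Mathlib

set_option autoImplicit false

open scoped ENNReal
open Finset

namespace Pool.Agent.Results.MP_990fd9_pr.Speedup

variable {V : Type} [Fintype V] [DecidableEq V]

/-- transition probability of simple random walk on the digraph `E`: uniform on out-neighbours -/
noncomputable def step (E : V → V → Prop) [DecidableRel E] (u w : V) : ℝ :=
  if E u w then 1 / ((univ.filter (E u)).card : ℝ) else 0

/-- probability that the walk started at `u` has trajectory `x 0, …, x t` -/
noncomputable def pathProb (E : V → V → Prop) [DecidableRel E] (u : V) (t : ℕ)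
    (x : Fin (t + 1) → V) : ℝ :=
  (if x 0 = u then 1 else 0) * ∏ s : Fin t, step E (x s.castSucc) (x s.succ)

/-- probability that none of `k` independent walks started at `u 0, …, u (k-1)` visits `v` at a
time `≤ t`, i.e. `P(ς({u_i}, v) > t)` -/
noncomputable def tail (E : V → V → Prop) [DecidableRel E] (k : ℕ) (u : Fin k → V) (v : V)
    (t : ℕ) : ℝ :=
  ∑ x : Fin k → Fin (t + 1) → V,
    if ∀ i s, x i s ≠ v then ∏ i, pathProb E (u i) t (x i) else 0

/-- expected joint hitting time `E ς = ∑_t P(ς > t)` -/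
noncomputable def hit (E : V → V → Prop) [DecidableRel E] (k : ℕ) (u : Fin k → V) (v : V) : ℝ≥0∞ :=
  ∑' t : ℕ, ENNReal.ofReal (tail E k u v t)

/-- `h^k_max`; `hmax E 1` is `h_max` -/
noncomputable def hmax (E : V → V → Prop) [DecidableRel E] (k : ℕ) : ℝ≥0∞ :=
  ⨆ (u : Fin k → V) (v : V), hit E k u v

variable (E : V → V → Prop) [DecidableRel E]

noncomputable def av (u v : V) (t : ℕ) : ℝ :=
  ∑ x : Fin (t + 1) → V, if ∀ s, x s ≠ v then pathProb E u t x else 0

lemma tail_eq (k : ℕ) (u : Fin k → V) (v : V) (t : ℕ) :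
    tail E k u v t = ∏ i, av E (u i) v t := by
  unfold tail av
  rw [Finset.prod_univ_sum, Fintype.piFinset_univ]
  refine Finset.sum_congr rfl fun x _ => ?_
  by_cases h : ∀ i s, x i s ≠ v
  · rw [if_pos h]
    exact Finset.prod_congr rfl fun i _ => by rw [if_pos (h i)]
  · rw [if_neg h]
    push Not at h
    obtain ⟨i, s, hs⟩ := h
    symm
    apply Finset.prod_eq_zero (mem_univ i)
    rw [if_neg]
    intro h
    exact h s hs

lemma step_nonneg (u w : V) : 0 ≤ step E u w := by
  unfold step; split_ifs <;> positivity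

lemma av_zero (u v : V) : av E u v 0 = if u = v then 0 else 1 := by
  unfold av pathProb
  rw [← (Equiv.funUnique (Fin 1) V).symm.sum_comp]
  simp only [Equiv.funUnique_symm_apply, uniqueElim_const, forall_const, univ_eq_empty,
    prod_empty, mul_one]
  rw [Finset.sum_eq_single u]
  · by_cases h : u = v <;> simp [h]
  · intro b _ hb; simp [hb]
  · simp

lemma av_succ (u v : V) (t : ℕ) :
    av E u v (t + 1) = if u = v then 0 else ∑ w, step E u w * av E w v t := by
  unfold av
  rw [← (Fin.consEquiv fun _ : Fin (t + 2) => V).sum_comp, Fintype.sum_prod_type,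
    Finset.sum_eq_single u]
  · by_cases h : u = v
    · rw [if_pos h]
      apply Finset.sum_eq_zero
      intro y _
      rw [if_neg]
      intro h'
      exact h' 0 (by simp [Fin.consEquiv, h])
    · rw [if_neg h]
      simp only [Finset.mul_sum]
      rw [Finset.sum_comm]
      refine Finset.sum_congr rfl fun y _ => ?_
      rw [Finset.sum_eq_single (y 0)]
      · have e : (∀ s, (Fin.consEquiv fun _ : Fin (t + 2) => V) (u, y) s ≠ v) ↔ ∀ s, y s ≠ v := by
          rw [Fin.forall_fin_succ]
          simp [Fin.consEquiv, h]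
        by_cases h2 : ∀ s, y s ≠ v
        · rw [if_pos (e.2 h2), if_pos h2]
          unfold pathProb
          rw [Fin.prod_univ_succ]
          simp [Fin.consEquiv, ← Fin.succ_castSucc]
        · rw [if_neg (fun h => h2 (e.1 h)), if_neg h2, mul_zero]
      · intro b _ hb
        unfold pathProb
        rw [if_neg (Ne.symm hb)]
        simp
      · simp
  · intro b _ hb
    apply Finset.sum_eq_zero
    intro y _
    unfold pathProb
    simp [Fin.consEquiv, hb]
  · simp

lemma av_nonneg (v : V) (t : ℕ) : ∀ u, 0 ≤ av E u v t := by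
  induction t with
  | zero => intro u; rw [av_zero]; split_ifs <;> norm_num
  | succ t ih =>
    intro u
    rw [av_succ]
    split_ifs
    · exact le_rfl
    · exact Finset.sum_nonneg fun w _ => mul_nonneg (step_nonneg E u w) (ih w)

lemma shift (v : V) (T : ℕ) (μ : ℝ) (hμ : ∀ w, ∑ i ∈ range T, av E w v i ≤ μ) (j : ℕ) :
    ∀ u, ∑ i ∈ range T, av E u v (j + i) ≤ μ * av E u v j := by
  induction j with
  | zero =>
    intro u
    simp only [zero_add]
    by_cases h : u = v
    · rw [av_zero, if_pos h, mul_zero]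
      apply le_of_eq
      apply Finset.sum_eq_zero
      intro i _
      cases i with
      | zero => rw [av_zero, if_pos h]
      | succ i => rw [av_succ, if_pos h]
    · rw [av_zero, if_neg h, mul_one]; exact hμ u
  | succ j ih =>
    intro u
    have e : ∀ i, j + 1 + i = (j + i) + 1 := fun i => by ring
    simp only [e, av_succ]
    by_cases h : u = v
    · simp [h]
    · simp only [if_neg h]
      rw [Finset.sum_comm, Finset.mul_sum]
      refine Finset.sum_le_sum fun w _ => ?_
      rw [← Finset.mul_sum, mul_left_comm]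
      exact mul_le_mul_of_nonneg_left (ih w) (step_nonneg E u w)

lemma pow_diff (x y : ℝ) (hy : 0 ≤ y) (hxy : y ≤ x) (k : ℕ) :
    x ^ (k + 1) ≤ y ^ (k + 1) + (k + 1) * x ^ k * (x - y) := by
  induction k with
  | zero => simp
  | succ k ih =>
    have hx : 0 ≤ x := hy.trans hxy
    have h1 : y ^ (k + 1) ≤ x ^ (k + 1) := pow_le_pow_left₀ hy hxy _
    have h2 := mul_le_mul_of_nonneg_left ih hx
    have h3 := mul_le_mul_of_nonneg_right h1 (sub_nonneg.2 hxy)
    push_cast
    have e1 : x ^ (k + 1 + 1) = x * x ^ (k + 1) := by ring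
    have e2 : y ^ (k + 1 + 1) = y * y ^ (k + 1) := by ring
    have e3 : x * (y ^ (k + 1) + (k + 1) * x ^ k * (x - y)) =
        x * y ^ (k + 1) + (k + 1) * x ^ (k + 1) * (x - y) := by ring
    rw [e1, e2]
    rw [e3] at h2
    nlinarith

lemma key (μ : ℝ) (k : ℕ) (T : ℕ) : ∀ a : ℕ → ℝ, (∀ i, 0 ≤ a i) →
    (∀ j S, S ≤ T → ∑ i ∈ range S, a (j + i) ≤ μ * a j) →
    (∑ i ∈ range T, a i) ^ (k + 1) ≤ (k + 1) * μ ^ k * ∑ i ∈ range T, a i ^ (k + 1) := by
  induction T with
  | zero => intro a _ _; simp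
  | succ T ih =>
    intro a ha h
    have h1 := ih (fun i => a (i + 1)) (fun i => ha _) (fun j S hS => by
      have := h (j + 1) S (by omega)
      simpa [add_right_comm] using this)
    have h2 := h 0 (T + 1) le_rfl
    simp only [zero_add] at h2
    rw [Finset.sum_range_succ' (fun i => a i ^ (k + 1))]
    have hG : 0 ≤ ∑ i ∈ range T, a (i + 1) := Finset.sum_nonneg fun i _ => ha _
    have e := Finset.sum_range_succ' a T
    have h3 := pow_diff (∑ i ∈ range (T + 1), a i) _ hG (by rw [e]; linarith [ha 0]) k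
    have h4 : (∑ i ∈ range (T + 1), a i) ^ k ≤ (μ * a 0) ^ k :=
      pow_le_pow_left₀ (Finset.sum_nonneg fun i _ => ha _) h2 k
    have h5 : (∑ i ∈ range (T + 1), a i) - ∑ i ∈ range T, a (i + 1) = a 0 := by rw [e]; ring
    rw [h5] at h3
    have h6 : ((k : ℝ) + 1) * (∑ i ∈ range (T + 1), a i) ^ k * a 0 ≤
        (k + 1) * (μ * a 0) ^ k * a 0 :=
      mul_le_mul_of_nonneg_right (mul_le_mul_of_nonneg_left h4 (by positivity)) (ha 0)
    have e2 : ((k : ℝ) + 1) * (μ * a 0) ^ k * a 0 = (k + 1) * μ ^ k * a 0 ^ (k + 1) := by ring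
    rw [mul_add]
    linarith

lemma trunc (v : V) (k T : ℕ) (u : V) :
    ∃ w, ∑ i ∈ range T, av E u v i ≤ (k + 1) * ∑ i ∈ range T, av E w v i ^ (k + 1) := by
  obtain ⟨w, -, hw⟩ := Finset.exists_max_image univ (fun w => ∑ i ∈ range T, av E w v i)
    ⟨u, mem_univ u⟩
  refine ⟨w, (hw u (mem_univ u)).trans ?_⟩
  set μ := ∑ i ∈ range T, av E w v i with hμ
  have h0 : 0 ≤ μ := Finset.sum_nonneg fun i _ => av_nonneg E v i w
  have h1 := key μ k T (av E w v) (fun i => av_nonneg E v i w) (fun j S hS =>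
    shift E v S μ (fun x => (Finset.sum_le_sum_of_subset_of_nonneg (range_mono hS)
      fun i _ _ => av_nonneg E v i x).trans (hw x (mem_univ x))) j w)
  rcases h0.eq_or_lt with h | h
  · rw [← h]
    exact mul_nonneg (by positivity) (Finset.sum_nonneg fun i _ => pow_nonneg (av_nonneg E v i w) _)
  · rw [← hμ] at h1
    have hp : 0 < μ ^ k := pow_pos h k
    have : μ ^ k * μ ≤ μ ^ k * ((k + 1) * ∑ i ∈ range T, av E w v i ^ (k + 1)) := by
      calc μ ^ k * μ = μ ^ (k + 1) := by ring
        _ ≤ _ := h1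
        _ = _ := by ring
    exact le_of_mul_le_mul_left this hp

/-- `h_max ≤ k · h^k_max` for every finite strongly connected digraph and every `k ≥ 1`. -/
theorem result (V : Type) [Fintype V] [DecidableEq V] (E : V → V → Prop) [DecidableRel E]
    (_hE : ∀ u v, Relation.ReflTransGen E u v) (k : ℕ) (hk : 1 ≤ k) :
    hmax E 1 ≤ k * hmax E k := by
  obtain ⟨k, rfl⟩ : ∃ j, k = j + 1 := ⟨k - 1, by omega⟩
  refine iSup_le fun u => iSup_le fun v => ?_
  rw [hit, ENNReal.tsum_eq_iSup_nat]
  refine iSup_le fun T => ?_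
  obtain ⟨w, hw⟩ := trunc E v k T (u 0)
  simp only [tail_eq, Fin.prod_univ_one]
  rw [← ENNReal.ofReal_sum_of_nonneg fun i _ => av_nonneg E v i _]
  refine (ENNReal.ofReal_le_ofReal hw).trans ?_
  rw [ENNReal.ofReal_mul (by positivity),
    ENNReal.ofReal_sum_of_nonneg fun i _ => pow_nonneg (av_nonneg E v i _) _]
  have e : ENNReal.ofReal ((k : ℝ) + 1) = ((k + 1 : ℕ) : ℝ≥0∞) := by
    rw [← ENNReal.ofReal_natCast]; push_cast; rfl
  rw [e]
  gcongr
  refine le_trans ?_ (le_iSup₂_of_le (f := fun u v => hit E (k + 1) u v) (fun _ => w) v le_rfl)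
  rw [hit]
  refine le_trans (le_of_eq ?_) (ENNReal.sum_le_tsum (range T))
  refine Finset.sum_congr rfl fun i _ => ?_
  rw [tail_eq]
  simp

end Pool.Agent.Results.MP_990fd9_pr.Speedup
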